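import Mathlib
import Pool.Agent.Lib.MP_ee7495_gt.Curve

set_option autoImplicit false

open scoped RealInnerProductSpace
open Set

namespace Pool.Agent.Results.MP_ee7495_gt.Broader

/-- The supremum of the breadths of curves of length one in three-space is at least 0.25605,
which exceeds the conjectured value 1/3.921545... = 0.255001... -/
theorem result :
    (0.25605 : ℝ) ≤ sSup {b : ℝ | ∃ γ : ℝ → EuclideanSpace ℝ (Fin 3),
      ContinuousOn γ (Icc 0 1) ∧ eVariationOn γ (Icc 0 1) = 1 ∧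
      b = sInf {d : ℝ | ∃ u : EuclideanSpace ℝ (Fin 3), ‖u‖ = 1 ∧
        d = sSup ((fun t => ⟪γ t, u⟫) '' Icc 0 1) - sInf ((fun t => ⟪γ t, u⟫) '' Icc 0 1)}} := by
  have hne : ∀ γ : ℝ → EuclideanSpace ℝ (Fin 3), {d : ℝ | ∃ u : EuclideanSpace ℝ (Fin 3),
      ‖u‖ = 1 ∧ d = sSup ((fun t => ⟪γ t, u⟫) '' Icc 0 1) -
        sInf ((fun t => ⟪γ t, u⟫) '' Icc 0 1)}.Nonempty :=
    fun γ => ⟨_, EuclideanSpace.single 0 1, by simp, rfl⟩
  have hcomp : ∀ (γ : ℝ → EuclideanSpace ℝ (Fin 3)) (u : EuclideanSpace ℝ (Fin 3)),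
      ContinuousOn γ (Icc 0 1) → IsCompact ((fun t => ⟪γ t, u⟫) '' Icc 0 1) :=
    fun γ u h => isCompact_Icc.image_of_continuousOn (h.inner continuousOn_const)
  obtain ⟨γ, hc, hv, hw⟩ := Pool.Agent.Lib.MP_ee7495_gt.exists_curve
  refine le_csSup_of_le ⟨1, ?_⟩ ⟨γ, hc.continuousOn, hv, rfl⟩ ?_
  · rintro b ⟨δ, hδc, hδv, rfl⟩
    have hI : (Icc (0 : ℝ) 1).Nonempty := ⟨0, by simp⟩
    have hb : BoundedVariationOn δ (Icc 0 1) := by
      unfold BoundedVariationOn; rw [hδv]; exact ENNReal.one_ne_top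
    refine csInf_le_of_le ⟨0, ?_⟩ (b := _) ⟨EuclideanSpace.single 0 1, by simp, rfl⟩ ?_
    · rintro d ⟨u, -, rfl⟩
      have h1 := le_csSup (hcomp δ u hδc).bddAbove (mem_image_of_mem _ hI.some_mem)
      have h2 := csInf_le (hcomp δ u hδc).bddBelow (mem_image_of_mem _ hI.some_mem)
      linarith
    · set u : EuclideanSpace ℝ (Fin 3) := EuclideanSpace.single 0 1 with hu
      have hu1 : ‖u‖ = 1 := by simp [hu]
      obtain ⟨s, hs, hs'⟩ := (hcomp δ u hδc).sSup_mem (hI.image _)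
      obtain ⟨t, ht, ht'⟩ := (hcomp δ u hδc).sInf_mem (hI.image _)
      rw [← hs', ← ht']
      simp only
      rw [← inner_sub_left]
      have h1 := hb.dist_le hs ht
      rw [hδv, dist_eq_norm, ENNReal.toReal_one] at h1
      have h2 := real_inner_le_norm (δ s - δ t) u
      rw [hu1, mul_one] at h2
      linarith
  · refine le_csInf (hne γ) ?_
    rintro d ⟨u, hu, rfl⟩
    obtain ⟨s, hs, t, ht, h⟩ := hw u hu
    have h1 := le_csSup (hcomp γ u hc.continuousOn).bddAbove (mem_image_of_mem _ hs)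
    have h2 := csInf_le (hcomp γ u hc.continuousOn).bddBelow (mem_image_of_mem _ ht)
    linarith

end Pool.Agent.Results.MP_ee7495_gt.Broader
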