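import Mathlib
import Pool.Agent.Lib.MP_ee7495_gt.X.StageA

set_option autoImplicit false

open scoped RealInnerProductSpace
open Set

namespace Pool.Agent.Results.MP_ee7495_gt.Upper

/-- Every curve of length one in three-space has breadth at most 1/3.902 = 0.256278... -/
theorem result (γ : ℝ → EuclideanSpace ℝ (Fin 3)) (hγ : ContinuousOn γ (Icc 0 1))
    (hL : eVariationOn γ (Icc 0 1) = 1) :
    sInf {d : ℝ | ∃ u : EuclideanSpace ℝ (Fin 3), ‖u‖ = 1 ∧
      d = sSup ((fun t => ⟪γ t, u⟫) '' Icc 0 1) - sInf ((fun t => ⟪γ t, u⟫) '' Icc 0 1)}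
      ≤ 1 / 3.902 := by
  have h := Pool.Agent.Lib.MP_ee7495_gt.X.beta_le_of_poly (L0 := 3902 / 1000) (by norm_num)
    (fun _ _ _ _ _ _ _ P => Pool.Agent.Lib.MP_ee7495_gt.X.stA_bound P) _ ⟨γ, hγ, hL, rfl⟩
  exact h.trans (by norm_num)

end Pool.Agent.Results.MP_ee7495_gt.Upper
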